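import Pool.Agent.Run7.h431.SA.Main

open Run7.h431.SA

namespace Pool.Agent.Results.MP_c30652_gt.NotMaximal

/-- Let `S` be a closed hyperbolic surface of genus `g ≥ 2` and `d = 2m ≥ 4`.  There is a domain of
discontinuity `N` in the `SL(2m, ℂ)`-character variety whose union with every domain of
discontinuity is again one, and which is not contained in the simple `k`-Anosov domain for any
`k ≠ m`; in particular the simple `k`-Anosov domain is not a maximal domain of discontinuity. -/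
theorem result (g : ℕ) (hg : 2 ≤ g) (S : HypSurface g) (m : ℕ) (hm : 2 ≤ m) :
    (∃ N : Set (CharVar (SurfaceGroup g) (2 * m)), IsDomain N ∧
      (∀ U : Set (CharVar (SurfaceGroup g) (2 * m)), IsDomain U → IsDomain (U ∪ N)) ∧
      ∀ k : ℕ, 1 ≤ k → k ≤ 2 * m - 1 → k ≠ m → ¬ N ⊆ SimpleAnosovDomain S k (2 * m)) ∧
    ∀ k : ℕ, 1 ≤ k → k ≤ 2 * m - 1 → k ≠ m →
      ¬ IsMaximalDomain (SimpleAnosovDomain S k (2 * m)) := by
  haveI : NeZero m := ⟨by omega⟩
  refine ⟨?_, fun k hk1 hk2 hkm => not_maximal S m hg hk1 (by omega) hkm⟩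
  obtain ⟨N, hN, hU, hk⟩ := exists_domain S m hg
  exact ⟨N, hN, hU, fun k hk1 hk2 hkm => hk k hk1 (by omega) hkm⟩

end Pool.Agent.Results.MP_c30652_gt.NotMaximal
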